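import Mathlib
import Pool.Agent.H892.ZL.Stm2

set_option autoImplicit false

/-!
# The equation of the complex of the lines in the members of a net, and its differential
-/

namespace Pool.Agent.H195.ZL

open Pool.Agent.H892.ZL MvPolynomial Matrix

section

variable {R : Type*} [CommRing R]

/-- the two columns `x`, `y` -/
def VV (x y : Fin 4 → R) : Matrix (Fin 4) (Fin 2) R := Matrix.of fun i => ![x i, y i]

/-- the symplectic matrix -/
def JJ (R : Type*) [CommRing R] : Matrix (Fin 2) (Fin 2) R := !![0, 1; -1, 0]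

theorem phat_plu (x y : Fin 4 → R) : phat (plu x y) = VV x y * JJ R * (VV x y)ᵀ := by
  ext i j
  fin_cases i <;> fin_cases j <;>
    simp [phat, plu, VV, JJ, Matrix.mul_apply, Fin.sum_univ_two] <;> ring

theorem bf_symm {Q : Matrix (Fin 4) (Fin 4) R} (hQ : Q.IsSymm) (x y : Fin 4 → R) :
    bf Q y x = bf Q x y := by
  unfold bf
  rw [Matrix.dotProduct_mulVec, ← Matrix.mulVec_transpose, hQ.eq, dotProduct_comm]

theorem VV_conj {Q : Matrix (Fin 4) (Fin 4) R} (hQ : Q.IsSymm) (x y : Fin 4 → R) :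
    (VV x y)ᵀ * (Q * VV x y) = !![bf Q x x, bf Q x y; bf Q x y, bf Q y y] := by
  have h : ∀ i j, ((VV x y)ᵀ * (Q * VV x y)) i j =
      bf Q (fun a => VV x y a i) (fun a => VV x y a j) := fun i j => rfl
  ext i j
  rw [h]
  fin_cases i <;> fin_cases j
  · rfl
  · rfl
  · exact bf_symm hQ x y
  · rfl

theorem trace_det (a b c : Fin 3 → R) :
    -(!![a 0, b 0; b 0, c 0] * (JJ R * (!![a 1, b 1; b 1, c 1] * (JJ R *
      (!![a 2, b 2; b 2, c 2] * JJ R))))).trace =
      (Matrix.of fun k => ![a k, b k, c k] : Matrix (Fin 3) (Fin 3) R).det := by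
  rw [Matrix.det_fin_three, Matrix.trace_fin_two]
  simp [JJ, Matrix.mul_apply, Fin.sum_univ_two]
  ring

theorem net_trace (Q : Fin 3 → Matrix (Fin 4) (Fin 4) R) (hQ : ∀ k, (Q k).IsSymm)
    (x y : Fin 4 → R) :
    -(Q 0 * phat (plu x y) * Q 1 * phat (plu x y) * Q 2 * phat (plu x y)).trace =
      (NN Q x y).det := by
  have h1 : Q 0 * phat (plu x y) * Q 1 * phat (plu x y) * Q 2 * phat (plu x y) =
      (Q 0 * VV x y * JJ R * ((VV x y)ᵀ * (Q 1 * VV x y)) * JJ R * ((VV x y)ᵀ * (Q 2 * VV x y)) * JJ R) *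
        (VV x y)ᵀ := by
    rw [phat_plu]
    simp only [Matrix.mul_assoc]
  rw [h1, Matrix.trace_mul_comm, VV_conj (hQ 1), VV_conj (hQ 2)]
  have h2 : (VV x y)ᵀ * (Q 0 * VV x y * JJ R * !![bf (Q 1) x x, bf (Q 1) x y; bf (Q 1) x y, bf (Q 1) y y] *
      JJ R * !![bf (Q 2) x x, bf (Q 2) x y; bf (Q 2) x y, bf (Q 2) y y] * JJ R) =
      ((VV x y)ᵀ * (Q 0 * VV x y)) * (JJ R * (!![bf (Q 1) x x, bf (Q 1) x y; bf (Q 1) x y, bf (Q 1) y y] *
      (JJ R * (!![bf (Q 2) x x, bf (Q 2) x y; bf (Q 2) x y, bf (Q 2) y y] * JJ R)))) := by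
    simp only [Matrix.mul_assoc]
  rw [h2, VV_conj (hQ 0)]
  exact trace_det (fun k => bf (Q k) x x) (fun k => bf (Q k) x y) (fun k => bf (Q k) y y)

end

theorem map_phat {R S : Type*} [CommRing R] [CommRing S] (f : R →+* S) (p : Fin 6 → R) :
    (phat p).map f = phat (fun i => f (p i)) := by
  ext i j
  fin_cases i <;> fin_cases j <;> simp [phat]

theorem aeval_net {R : Type*} [CommRing R] [Algebra ℂ R] (Q : Fin 3 → Matrix (Fin 4) (Fin 4) ℂ)
    (hQ : ∀ k, (Q k).IsSymm) (x y : Fin 4 → R) :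
    aeval (plu x y) (NetK Q) = (NN (fun k => (Q k).map (algebraMap ℂ R)) x y).det := by
  rw [← net_trace (fun k => (Q k).map (algebraMap ℂ R)) (fun k => (hQ k).map _) x y]
  unfold NetK
  rw [map_neg]
  congr 1
  set f : MvPolynomial (Fin 6) ℂ →+* R := (aeval (plu x y) : MvPolynomial (Fin 6) ℂ →ₐ[ℂ] R).toRingHom
    with hf
  have h1 : ∀ M : Matrix (Fin 4) (Fin 4) (MvPolynomial (Fin 6) ℂ), aeval (plu x y) M.trace =
      (M.map f).trace := by
    intro M
    unfold Matrix.trace
    rw [map_sum]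
    rfl
  have h2 : (phat (X : Fin 6 → MvPolynomial (Fin 6) ℂ)).map f = phat (plu x y) := by
    rw [map_phat]
    congr 1
    funext i
    exact aeval_X _ i
  have h3 : ∀ k, ((Q k).map (C : ℂ →+* MvPolynomial (Fin 6) ℂ)).map f =
      (Q k).map (algebraMap ℂ R) := by
    intro k
    ext i j
    exact aeval_C _ _
  rw [h1]
  simp only [Matrix.map_mul, h2, h3]

open TrivSqZeroExt in
theorem aeval_dual (p u : Fin 6 → ℂ) (A : MvPolynomial (Fin 6) ℂ) :
    aeval (fun I => (inl (p I) + inr (u I) : DualNumber ℂ)) A =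
      (inl (eval p A) + inr (∑ I, eval p (pderiv I A) * u I) : DualNumber ℂ) := by
  induction A using MvPolynomial.induction_on with
  | C a =>
    rw [aeval_C, eval_C]
    simp
    rfl
  | add A B hA hB =>
    rw [map_add, hA, hB]
    simp only [map_add, add_mul, Finset.sum_add_distrib, inl_add, inr_add]
    ring
  | mul_X A n hA =>
    rw [map_mul, hA, aeval_X]
    apply TrivSqZeroExt.ext
    · simp
    · rw [TrivSqZeroExt.snd_mul]
      have h : ∀ I, eval p (pderiv I (A * X n)) * u I =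
          p n * (eval p (pderiv I A) * u I) + eval p A * (if I = n then u n else 0) := by
        intro I
        rw [Derivation.leibniz, pderiv_X, smul_eq_mul, smul_eq_mul, map_add, map_mul, map_mul, eval_X]
        by_cases hI : I = n
        · subst hI; simp; ring
        · simp [hI, Ne.symm hI]; ring
      simp only [h, Finset.sum_add_distrib, ← Finset.mul_sum, Finset.sum_ite_eq', Finset.mem_univ,
        if_true]
      simp
      ring

open TrivSqZeroExt in
theorem plu_dual (x y ξ η : Fin 4 → ℂ) :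
    plu (fun i => (inl (x i) + inr (ξ i) : DualNumber ℂ)) (fun i => inl (y i) + inr (η i)) =
      fun I => inl (plu x y I) + inr ((plu ξ y + plu x η) I) := by
  funext I
  fin_cases I <;> apply TrivSqZeroExt.ext <;> simp [plu] <;> ring

theorem fst_am (c : ℂ) : TrivSqZeroExt.fst (algebraMap ℂ (DualNumber ℂ) c) = c := rfl

theorem snd_am (c : ℂ) : TrivSqZeroExt.snd (algebraMap ℂ (DualNumber ℂ) c) = 0 := rfl

open TrivSqZeroExt in
theorem bf_dual (M : Matrix (Fin 4) (Fin 4) ℂ) (x y ξ η : Fin 4 → ℂ) :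
    bf (M.map (algebraMap ℂ (DualNumber ℂ))) (fun i => (inl (x i) + inr (ξ i) : DualNumber ℂ))
      (fun i => inl (y i) + inr (η i)) = inl (bf M x y) + inr (bf M ξ y + bf M x η) := by
  unfold bf dotProduct Matrix.mulVec dotProduct
  simp only [Fin.sum_univ_four]
  apply TrivSqZeroExt.ext
  · simp [fst_am]
  · simp [fst_am, snd_am]
    ring

open TrivSqZeroExt in
theorem det_dual (N N' : Matrix (Fin 3) (Fin 3) ℂ) :
    (Matrix.of fun k i => (inl (N k i) + inr (N' k i) : DualNumber ℂ)).det =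
      inl N.det + inr (N.adjugate * N').trace := by
  rw [Matrix.det_fin_three, Matrix.det_fin_three, Matrix.adjugate_fin_three, Matrix.trace_fin_three]
  apply TrivSqZeroExt.ext
  · simp
  · simp [Matrix.mul_apply, Fin.sum_univ_three]
    ring

open TrivSqZeroExt in
theorem t_NETD : S_NETD := by
  intro Q hQ
  constructor
  · intro x y
    have h := aeval_net Q hQ x y
    have e : (fun k => (Q k).map (algebraMap ℂ ℂ)) = Q := by
      funext k; ext i j; rfl
    rw [e] at h
    exact h
  · intro x y ξ η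
    have h := aeval_net Q hQ (fun i => (inl (x i) + inr (ξ i) : DualNumber ℂ))
      (fun i => inl (y i) + inr (η i))
    have hN : NN (fun k => (Q k).map (algebraMap ℂ (DualNumber ℂ)))
        (fun i => (inl (x i) + inr (ξ i) : DualNumber ℂ)) (fun i => inl (y i) + inr (η i)) =
        Matrix.of fun k i => (inl (NN Q x y k i) + inr (NN' Q x y ξ η k i) : DualNumber ℂ) := by
      refine Matrix.ext fun k i => ?_
      have h0 := bf_dual (Q k) x x ξ ξ
      have h1 := bf_dual (Q k) x y ξ η
      have h2 := bf_dual (Q k) y y η η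
      rw [bf_symm (hQ k) x ξ, ← two_mul] at h0
      rw [bf_symm (hQ k) y η, ← two_mul] at h2
      fin_cases i
      · exact h0
      · exact h1
      · exact h2
    rw [plu_dual, aeval_dual, hN, det_dual] at h
    have h2 := congrArg TrivSqZeroExt.snd h
    simp only [snd_add, snd_inl, snd_inr, zero_add] at h2
    exact h2

end Pool.Agent.H195.ZL
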